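import Mathlib
import Pool.Agent.Q28.Boom

/-!
There is an infinite countable group whose only boomerang subgroups are the trivial subgroup and
the whole group.
-/

namespace Pool.Agent.Results.MP_80afb3_al.BoomerangSimple

open Equiv Q28.Boom

/-- The indicator function of a subgroup. -/
noncomputable def indicator {G : Type} [Group G] (D : Subgroup G) (g : G) : Bool :=
  open scoped Classical in decide (g ∈ D)

/-- The Chabauty topology on the set of subgroups of a discrete group `G`: the topology induced
from the product topology of `G → Bool`, with the discrete topology on `Bool`. -/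
@[instance_reducible]
noncomputable def chabauty (G : Type) [Group G] : TopologicalSpace (Subgroup G) :=
  TopologicalSpace.induced indicator Pi.topologicalSpace

/-- The conjugate subgroup `g D g⁻¹`. -/
def conj {G : Type} [Group G] (g : G) (D : Subgroup G) : Subgroup G :=
  D.map (MulAut.conj g).toMonoidHom

/-- `D` is recurrent for `g`: every open neighbourhood of `D` in the Chabauty topology contains
`g ^ n D g ^ (-n)` for some `n ≥ 1`. -/
def IsRecurrentFor {G : Type} [Group G] (g : G) (D : Subgroup G) : Prop :=
  ∀ O : Set (Subgroup G), @IsOpen _ (chabauty G) O → D ∈ O → ∃ n : ℕ, 1 ≤ n ∧ conj (g ^ n) D ∈ O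

/-- `D` is a boomerang subgroup: it is recurrent for every `g`. -/
def IsBoomerang {G : Type} [Group G] (D : Subgroup G) : Prop :=
  ∀ g : G, IsRecurrentFor g D

theorem mem_conj {G : Type} [Group G] (g : G) (D : Subgroup G) (h : G) :
    h ∈ conj g D ↔ g⁻¹ * h * g ∈ D := by
  unfold conj
  constructor
  · rintro ⟨d, hd, rfl⟩
    have : g⁻¹ * (MulAut.conj g d) * g = d := by
      rw [MulAut.conj_apply]; group
    change g⁻¹ * (MulAut.conj g d) * g ∈ D
    rw [this]
    exact hd
  · intro hh
    refine ⟨_, hh, ?_⟩
    change MulAut.conj g (g⁻¹ * h * g) = h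
    rw [MulAut.conj_apply]; group

theorem isOpen_cyl {G : Type} [Group G] (g : G) (b : Bool) :
    @IsOpen _ (chabauty G) {D : Subgroup G | indicator D g = b} := by
  let _ := chabauty G
  have h0 : Continuous (indicator : Subgroup G → G → Bool) := continuous_induced_dom
  have h1 : Continuous (fun D : Subgroup G => indicator D g) := (continuous_apply g).comp h0
  exact (isOpen_discrete ({b} : Set Bool)).preimage h1

theorem indicator_true {G : Type} [Group G] (D : Subgroup G) (g : G) :
    indicator D g = true ↔ g ∈ D := by simp [indicator]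

theorem indicator_false {G : Type} [Group G] (D : Subgroup G) (g : G) :
    indicator D g = false ↔ g ∉ D := by simp [indicator]

theorem rec1 {G : Type} [Group G] {g : G} {D : Subgroup G} (h : IsRecurrentFor g D) (y : G)
    (hy : y ∈ D) : ∃ n : ℕ, 1 ≤ n ∧ (g ^ n)⁻¹ * y * g ^ n ∈ D := by
  obtain ⟨n, hn, h1⟩ := h _ (isOpen_cyl y true) ((indicator_true D y).2 hy)
  exact ⟨n, hn, (mem_conj _ _ _).1 ((indicator_true _ _).1 h1)⟩

theorem rec2 {G : Type} [Group G] {g : G} {D : Subgroup G} (h : IsRecurrentFor g D) (z : G)
    (hz : ∀ n : ℕ, 1 ≤ n → (g ^ n)⁻¹ * z * g ^ n ∈ D) : z ∈ D := by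
  by_contra hzD
  obtain ⟨n, hn, h1⟩ := h _ (isOpen_cyl z false) ((indicator_false D z).2 hzD)
  exact (indicator_false _ _).1 h1 ((mem_conj _ _ _).2 (hz n hn))

theorem isBoomerang_of_normal {G : Type} [Group G] (D : Subgroup G) (hD : D.Normal) :
    IsBoomerang D := by
  intro g O _ hDO
  refine ⟨1, le_refl _, ?_⟩
  have : conj (g ^ 1) D = D := by
    ext h
    rw [mem_conj]
    constructor
    · intro h1
      have := hD.conj_mem _ h1 (g ^ 1)
      have h2 : g ^ 1 * ((g ^ 1)⁻¹ * h * g ^ 1) * (g ^ 1)⁻¹ = h := by group
      rwa [h2] at this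
    · intro h1
      have := hD.conj_mem _ h1 (g ^ 1)⁻¹
      rwa [inv_inv] at this
  rw [this]
  exact hDO

/-- There is an infinite countable group whose boomerang subgroups are exactly the trivial
subgroup and the whole group. -/
theorem result : ∃ (Γ : Type) (_ : Group Γ), Countable Γ ∧ Infinite Γ ∧
    ∀ D : Subgroup Γ, IsBoomerang D ↔ D = ⊥ ∨ D = ⊤ := by
  obtain ⟨s, hs⟩ := exists_shift
  obtain ⟨H, hHc, hsH, hHF⟩ := exists_closed F s
  have hHc' : Countable H := hHc.to_subtype
  let N : Subgroup H := FS.subgroupOf H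
  refine ⟨H ⧸ N, inferInstance, Quotient.countable, ?_, ?_⟩
  · -- infinite
    refine Infinite.of_injective (fun n : ℕ => (QuotientGroup.mk (⟨s, hsH⟩ ^ n) : H ⧸ N)) ?_
    have key : ∀ n k : ℕ, n < k → (QuotientGroup.mk ((⟨s, hsH⟩ : H) ^ n) : H ⧸ N) ≠
        QuotientGroup.mk (⟨s, hsH⟩ ^ k) := by
      intro n k hnk h
      rw [QuotientGroup.eq] at h
      apply hs (k - n) (by omega)
      have h1 : ((⟨s, hsH⟩ : H) ^ n)⁻¹ * ⟨s, hsH⟩ ^ k = ⟨s, hsH⟩ ^ (k - n) := by
        rw [inv_mul_eq_iff_eq_mul, ← pow_add]
        congr 1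
        omega
      rw [h1] at h
      exact h
    intro n k h
    rcases lt_trichotomy n k with h1 | h1 | h1
    · exact absurd h (key n k h1)
    · exact h1
    · exact absurd h.symm (key k n h1)
  · intro D
    constructor
    · intro hD
      by_cases hbot : D = ⊥
      · exact Or.inl hbot
      · right
        obtain ⟨x', hx', hx1⟩ : ∃ x' : H ⧸ N, x' ∈ D ∧ x' ≠ 1 := by
          by_contra hno
          push Not at hno
          exact hbot ((Subgroup.eq_bot_iff_forall D).2 hno)
        obtain ⟨x, rfl⟩ := QuotientGroup.mk_surjective x'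
        have hxN : (x : Perm ℕ) ∉ FS := by
          intro h
          apply hx1
          exact (QuotientGroup.eq_one_iff x).2 h
        let E : Subgroup (Perm ℕ) := (D.comap (QuotientGroup.mk' N)).map H.subtype
        have hE : ∀ y : H, (y : Perm ℕ) ∈ E ↔ (QuotientGroup.mk y : H ⧸ N) ∈ D := by
          intro y
          constructor
          · rintro ⟨y', hy', hyy⟩
            have : y' = y := Subtype.ext hyy
            rw [← this]
            exact hy'
          · intro h
            exact ⟨y, h, rfl⟩
        have hEH : ∀ y ∈ E, y ∈ H := by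
          rintro _ ⟨y', _, rfl⟩
          exact y'.2
        have hR : Rec H E := by
          constructor
          · intro y hy γ hγ
            have hyH := hEH y hy
            let γ' : H := ⟨γ, hγ⟩
            let y' : H := ⟨y, hyH⟩
            have h0 : (QuotientGroup.mk y' : H ⧸ N) ∈ D := (hE y').1 hy
            obtain ⟨n, hn, h1⟩ := rec1 (hD (QuotientGroup.mk γ')) _ h0
            have h2 : (QuotientGroup.mk ((γ' ^ n)⁻¹ * y' * γ' ^ n) : H ⧸ N) ∈ D := h1
            exact ⟨n, hn, (hE _).2 h2⟩
          · intro z hz γ hγ h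
            let γ' : H := ⟨γ, hγ⟩
            let z' : H := ⟨z, hz⟩
            have h0 : (QuotientGroup.mk z' : H ⧸ N) ∈ D := by
              refine rec2 (hD (QuotientGroup.mk γ')) _ ?_
              intro n hn
              have h1 : (((γ' ^ n)⁻¹ * z' * γ' ^ n : H) : Perm ℕ) ∈ E := h n hn
              have h2 : (QuotientGroup.mk ((γ' ^ n)⁻¹ * z' * γ' ^ n) : H ⧸ N) ∈ D := (hE _).1 h1
              exact h2
            exact (hE z').2 h0
        have hle := le_of_rec hR hHF x.2 ((hE x).2 hx') hxN
        have hall : ∀ y : H, (QuotientGroup.mk y : H ⧸ N) ∈ D := by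
          intro y
          have h1 : (y : Perm ℕ) ∈ E := hle y.2
          exact (hE y).1 h1
        refine (Subgroup.eq_top_iff' D).2 ?_
        intro y
        obtain ⟨y', hy'⟩ := QuotientGroup.mk_surjective y
        rw [← hy']
        exact hall y'
    · rintro (rfl | rfl)
      · exact isBoomerang_of_normal _ inferInstance
      · exact isBoomerang_of_normal _ inferInstance

end Pool.Agent.Results.MP_80afb3_al.BoomerangSimple
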